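import Mathlib

/-!
# The inclusions of consecutive Čech complexes of a hypercube graph are null-homotopic

For all `n ≥ 1` and all integers `r ≥ 0` the inclusion of the Čech complex `N(I_n, r)` of the
hypercube graph in the Čech complex `N(I_n, r + 1)` is null-homotopic.

Proof. For a coordinate `i` let `α x` be the element of even weight among `x` and `x + e_i`. If `σ`
is a simplex of `N(I_n, r)` then `σ ∪ α σ` is a simplex of `N(I_n, r + 1)` (for odd `r = 2 k + 1` and
`σ` in the union of the balls of radius `k` around the ends of an edge, `σ ∪ α σ` is in the ball of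
radius `k + 1` around the end with weight of the parity of `k + 1`). So the inclusion is homotopic to
the map induced by `α`. The folding `f` which makes the coordinate `i` zero is a simplicial map of
`N(I_n, r)` to itself and `α ∘ f = α`; so the inclusion is homotopic to its composition with `f`.
Fold all coordinates.
-/

set_option autoImplicit false

open Finset

namespace Pool.Agent.Results.MP_117f64_co.NullHomotopicInclusion

/-- The vertices of the hypercube graph `I_n`. The distance of two vertices in the graph is the number
`hammingDist` of the coordinates in which they differ. -/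
abbrev Vert (n : ℕ) : Type := Fin n → Bool

/-- `σ` is a simplex of the Čech complex `N(I_n, r)`: a nonempty set of vertices, contained in a ball
of radius `k` if `r = 2 k`, and in the union of the balls of radius `k` around two adjacent vertices
if `r = 2 k + 1`. -/
def IsSimplex (n r : ℕ) (σ : Finset (Vert n)) : Prop :=
  σ.Nonempty ∧
    ((∃ k : ℕ, r = 2 * k ∧ ∃ v : Vert n, ∀ x ∈ σ, hammingDist x v ≤ k) ∨
      (∃ k : ℕ, r = 2 * k + 1 ∧ ∃ v w : Vert n, hammingDist v w = 1 ∧
        ∀ x ∈ σ, hammingDist x v ≤ k ∨ hammingDist x w ≤ k))

/-- The geometric realization of `N(I_n, r)`: the points are given by their barycentric coordinates;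
the vertices with nonzero coordinates form a simplex. -/
def Cech (n r : ℕ) : Set (Vert n → ℝ) :=
  {p | (∀ x, 0 ≤ p x) ∧ ∑ x, p x = 1 ∧ IsSimplex n r (univ.filter fun x => p x ≠ 0)}

variable {n r s : ℕ}

theorem IsSimplex.mono {σ τ : Finset (Vert n)} (h : IsSimplex n r σ) (hs : τ ⊆ σ)
    (hne : τ.Nonempty) : IsSimplex n r τ := by
  refine ⟨hne, ?_⟩
  rcases h.2 with ⟨k, hk, v, hv⟩ | ⟨k, hk, v, w, hvw, hv⟩
  · exact Or.inl ⟨k, hk, v, fun x hx => hv x (hs hx)⟩
  · exact Or.inr ⟨k, hk, v, w, hvw, fun x hx => hv x (hs hx)⟩

/-- the image of a point under the affine extension of a map of the vertices -/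
def push (f : Vert n → Vert n) (p : Vert n → ℝ) : Vert n → ℝ :=
  fun y => ∑ x, if f x = y then p x else 0

theorem push_nonneg (f : Vert n → Vert n) {p : Vert n → ℝ} (hp : ∀ x, 0 ≤ p x) (y : Vert n) :
    0 ≤ push f p y :=
  Finset.sum_nonneg fun x _ => by split_ifs <;> simp [hp x]

theorem sum_push (f : Vert n → Vert n) (p : Vert n → ℝ) : ∑ y, push f p y = ∑ x, p x := by
  unfold push
  rw [Finset.sum_comm]
  exact Finset.sum_congr rfl fun x _ => by simp

theorem push_ne (f : Vert n → Vert n) {p : Vert n → ℝ} {y : Vert n} (h : push f p y ≠ 0) :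
    ∃ x, p x ≠ 0 ∧ f x = y := by
  by_contra hc
  push Not at hc
  refine h (Finset.sum_eq_zero fun x _ => ?_)
  split_ifs with hx
  · by_contra hp
    exact hc x hp hx
  · rfl

theorem push_id (p : Vert n → ℝ) : push id p = p := by
  funext y
  simp [push]

theorem push_push (f g : Vert n → Vert n) (p : Vert n → ℝ) :
    push f (push g p) = push (f ∘ g) p := by
  funext y
  unfold push
  have : ∀ x : Vert n, (if f x = y then ∑ z, (if g z = x then p z else 0) else 0) =
      ∑ z, if f x = y ∧ g z = x then p z else 0 := by
    intro x
    split_ifs with h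
    · simp [h]
    · simp [h]
  simp only [this]
  rw [Finset.sum_comm]
  refine Finset.sum_congr rfl fun z _ => ?_
  by_cases h : f (g z) = y
  · rw [if_pos (by simpa using h)]
    rw [Finset.sum_eq_single (g z)]
    · simp [h]
    · intro x _ hx
      rw [if_neg]
      rintro ⟨_, h2⟩
      exact hx h2.symm
    · simp
  · rw [if_neg (by simpa using h)]
    refine Finset.sum_eq_zero fun x _ => ?_
    rw [if_neg]
    rintro ⟨h1, h2⟩
    exact h (h2 ▸ h1)

theorem continuous_push (f : Vert n → Vert n) : Continuous (push f) := by
  refine continuous_pi fun y => continuous_finsetSum _ fun x _ => ?_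
  split_ifs
  · exact continuous_apply x
  · exact continuous_const

/-- contiguity of maps from `N(I_n, r)` to `N(I_n, s)` -/
def Contig (r s : ℕ) (f g : Vert n → Vert n) : Prop :=
  ∀ σ : Finset (Vert n), IsSimplex n r σ → IsSimplex n s (σ.image f ∪ σ.image g)

theorem mem_cech_of_contig {f g : Vert n → Vert n} (h : Contig r s f g) {p : Vert n → ℝ}
    (hp : p ∈ Cech n r) {t : ℝ} (h0 : 0 ≤ t) (h1 : t ≤ 1) :
    (1 - t) • push f p + t • push g p ∈ Cech n s := by
  obtain ⟨hp0, hp1, hp2⟩ := hp
  have hsum : ∑ x, ((1 - t) • push f p + t • push g p) x = 1 := by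
    simp only [Pi.add_apply, Pi.smul_apply, smul_eq_mul, Finset.sum_add_distrib,
      ← Finset.mul_sum, sum_push, hp1]
    ring
  refine ⟨fun x => ?_, hsum, ?_⟩
  · have a := push_nonneg f hp0 x
    have b := push_nonneg g hp0 x
    simp only [Pi.add_apply, Pi.smul_apply, smul_eq_mul]
    have := mul_nonneg (sub_nonneg.2 h1) a
    have := mul_nonneg h0 b
    linarith
  · refine (h _ hp2).mono (fun y hy => ?_) ?_
    · rw [Finset.mem_filter] at hy
      have hy := hy.2
      simp only [Pi.add_apply, Pi.smul_apply, smul_eq_mul] at hy
      by_cases hf : push f p y = 0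
      · have hg : push g p y ≠ 0 := by
          intro hg
          rw [hf, hg] at hy
          simp at hy
        obtain ⟨x, hx, rfl⟩ := push_ne g hg
        exact Finset.mem_union_right _ (Finset.mem_image_of_mem _ (by simpa using hx))
      · obtain ⟨x, hx, rfl⟩ := push_ne f hf
        exact Finset.mem_union_left _ (Finset.mem_image_of_mem _ (by simpa using hx))
    · by_contra hc
      rw [Finset.not_nonempty_iff_eq_empty] at hc
      have : ∑ x, ((1 - t) • push f p + t • push g p) x = 0 := by
        refine Finset.sum_eq_zero fun x _ => ?_
        by_contra hx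
        have : x ∈ (∅ : Finset (Vert n)) := by
          rw [← hc, Finset.mem_filter]
          exact ⟨Finset.mem_univ _, hx⟩
        simp at this
      rw [this] at hsum
      exact zero_ne_one hsum

theorem Contig.left {f g : Vert n → Vert n} (h : Contig r s f g) : Contig r s f f := fun σ hσ => by
  rw [Finset.union_self]
  exact (h σ hσ).mono Finset.subset_union_left (hσ.1.image _)

theorem Contig.right {f g : Vert n → Vert n} (h : Contig r s f g) : Contig r s g g := fun σ hσ => by
  rw [Finset.union_self]
  exact (h σ hσ).mono Finset.subset_union_right (hσ.1.image _)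

theorem push_mem {f : Vert n → Vert n} (h : Contig r s f f) {p : Vert n → ℝ}
    (hp : p ∈ Cech n r) : push f p ∈ Cech n s := by
  have := mem_cech_of_contig h hp (t := 0) le_rfl zero_le_one
  simpa using this

/-- the map of the realizations induced by a simplicial map -/
def real (f : Vert n → Vert n) (h : Contig r s f f) : C(Cech n r, Cech n s) where
  toFun p := ⟨push f p.1, push_mem h p.2⟩
  continuous_toFun := ((continuous_push f).comp continuous_subtype_val).subtype_mk _

theorem homotopic_of_contig {f g : Vert n → Vert n} (h : Contig r s f g) :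
    (real f h.left).Homotopic (real g h.right) :=
  ⟨{  toFun := fun q => ⟨(1 - (q.1 : ℝ)) • push f q.2.1 + (q.1 : ℝ) • push g q.2.1,
        mem_cech_of_contig h q.2.2 q.1.2.1 q.1.2.2⟩
      continuous_toFun := by
        have h1 : Continuous fun q : unitInterval × Cech n r => push f q.2.1 :=
          (continuous_push f).comp (continuous_subtype_val.comp continuous_snd)
        have h2 : Continuous fun q : unitInterval × Cech n r => push g q.2.1 :=
          (continuous_push g).comp (continuous_subtype_val.comp continuous_snd)
        have h3 : Continuous fun q : unitInterval × Cech n r => (q.1 : ℝ) :=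
          continuous_subtype_val.comp continuous_fst
        exact (((continuous_const.sub h3).smul h1).add (h3.smul h2)).subtype_mk _
      map_zero_left := fun p => by
        apply Subtype.ext
        simp [real]
      map_one_left := fun p => by
        apply Subtype.ext
        simp [real] }⟩

theorem real_comp {t : ℕ} {f g : Vert n → Vert n} (hf : Contig s t f f) (hg : Contig r s g g)
    (hfg : Contig r t (f ∘ g) (f ∘ g)) : (real f hf).comp (real g hg) = real (f ∘ g) hfg := by
  ext p
  simp [real, push_push]

/-! ### Folding -/

/-- the coordinate `i` becomes `false` -/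
def fold (i : Fin n) (x : Vert n) : Vert n := Function.update x i false

/-- the coordinate `i` changes -/
def flip (i : Fin n) (x : Vert n) : Vert n := Function.update x i (!x i)

/-- the number of the coordinates `true` -/
def wt (x : Vert n) : ℕ := (univ.filter fun i => x i = true).card

/-- the element of even weight among `x` and `flip i x` -/
def alpha (i : Fin n) (x : Vert n) : Vert n := if Even (wt x) then x else flip i x

theorem dist_eq_sum (x y : Vert n) : hammingDist x y = ∑ i, if x i = y i then 0 else 1 := by
  unfold hammingDist
  rw [Finset.card_filter]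
  exact Finset.sum_congr rfl fun i _ => by by_cases h : x i = y i <;> simp [h]

theorem wt_eq_sum (x : Vert n) : wt x = ∑ i, if x i = true then 1 else 0 := by
  unfold wt
  rw [Finset.card_filter]

theorem dist_parity (x y : Vert n) : (hammingDist x y + wt x + wt y) % 2 = 0 := by
  rw [dist_eq_sum, wt_eq_sum, wt_eq_sum, ← Finset.sum_add_distrib, ← Finset.sum_add_distrib]
  have : ∀ i, ((if x i = y i then 0 else 1) + (if x i = true then 1 else 0) +
      (if y i = true then 1 else 0) : ℕ) % 2 = 0 := by
    intro i
    cases x i <;> cases y i <;> simp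
  rw [Finset.sum_nat_mod]
  simp [this]

theorem dist_flip_le (i : Fin n) (x : Vert n) : hammingDist (flip i x) x ≤ 1 := by
  unfold hammingDist
  refine Finset.card_le_one.2 fun a ha b hb => ?_
  have key : ∀ c : Fin n, c ∈ univ.filter (fun j => flip i x j ≠ x j) → c = i := by
    intro c hc
    rw [Finset.mem_filter] at hc
    by_contra hci
    exact hc.2 (by simp [flip, Function.update_of_ne hci])
  rw [key a ha, key b hb]

theorem dist_flip (i : Fin n) (x : Vert n) : hammingDist (flip i x) x = 1 := by
  refine le_antisymm (dist_flip_le i x) ?_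
  rw [Nat.one_le_iff_ne_zero, Ne, hammingDist_eq_zero]
  intro h
  have := congrFun h i
  simp [flip] at this

theorem dist_flip_flip (i : Fin n) (x y : Vert n) :
    hammingDist (flip i x) (flip i y) = hammingDist x y := by
  rw [dist_eq_sum, dist_eq_sum]
  refine Finset.sum_congr rfl fun j _ => ?_
  by_cases h : j = i
  · subst h
    simp [flip]
  · simp [flip, Function.update_of_ne h]

theorem dist_fold_le (i : Fin n) (x y : Vert n) :
    hammingDist (fold i x) (fold i y) ≤ hammingDist x y := by
  rw [dist_eq_sum, dist_eq_sum]
  refine Finset.sum_le_sum fun j _ => ?_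
  by_cases h : j = i
  · subst h
    simp [fold]
  · simp [fold, Function.update_of_ne h]

theorem fold_eq (i : Fin n) (x : Vert n) : fold i x = x ∨ fold i x = flip i x := by
  cases h : x i
  · left
    rw [fold, ← h, Function.update_eq_self]
  · right
    simp [fold, flip, h]

theorem flip_flip (i : Fin n) (x : Vert n) : flip i (flip i x) = x := by
  funext j
  by_cases h : j = i
  · subst h
    simp [flip]
  · simp [flip, Function.update_of_ne h]

theorem wt_flip (i : Fin n) (x : Vert n) : (wt (flip i x) + wt x) % 2 = 1 := by
  have h1 := dist_parity (flip i x) x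
  rw [dist_flip] at h1
  omega

theorem alpha_flip (i : Fin n) (x : Vert n) : alpha i (flip i x) = alpha i x := by
  have h := wt_flip i x
  unfold alpha
  by_cases h1 : Even (wt x)
  · have h2 : ¬ Even (wt (flip i x)) := by
      rw [Nat.even_iff] at h1 ⊢
      omega
    rw [if_pos h1, if_neg h2, flip_flip]
  · have h2 : Even (wt (flip i x)) := by
      rw [Nat.even_iff] at h1 ⊢
      omega
    rw [if_neg h1, if_pos h2]

theorem alpha_fold (i : Fin n) : alpha i ∘ fold i = alpha i := by
  funext x
  rcases fold_eq i x with h | h
  · simp [h]
  · simp [h, alpha_flip]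

theorem contig_fold (i : Fin n) (r : ℕ) : Contig r r (fold i) (fold i) := by
  intro σ hσ
  rw [Finset.union_self]
  refine ⟨hσ.1.image _, ?_⟩
  rcases hσ.2 with ⟨k, hk, v, hv⟩ | ⟨k, hk, v, w, hvw, hv⟩
  · refine Or.inl ⟨k, hk, fold i v, fun y hy => ?_⟩
    obtain ⟨x, hx, rfl⟩ := Finset.mem_image.1 hy
    exact (dist_fold_le i x v).trans (hv x hx)
  · by_cases h : fold i v = fold i w
    · refine Or.inr ⟨k, hk, fold i v, flip i (fold i v), ?_, fun y hy => ?_⟩
      · rw [hammingDist_comm]
        exact dist_flip i _
      · obtain ⟨x, hx, rfl⟩ := Finset.mem_image.1 hy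
        left
        rcases hv x hx with h1 | h1
        · exact (dist_fold_le i x v).trans h1
        · rw [h]
          exact (dist_fold_le i x w).trans h1
    · refine Or.inr ⟨k, hk, fold i v, fold i w, ?_, fun y hy => ?_⟩
      · refine le_antisymm ((dist_fold_le i v w).trans hvw.le) ?_
        rw [Nat.one_le_iff_ne_zero, Ne, hammingDist_eq_zero]
        exact h
      · obtain ⟨x, hx, rfl⟩ := Finset.mem_image.1 hy
        rcases hv x hx with h1 | h1
        · exact Or.inl ((dist_fold_le i x v).trans h1)
        · exact Or.inr ((dist_fold_le i x w).trans h1)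

/-- the main contiguity -/
theorem contig_alpha (i : Fin n) (r : ℕ) : Contig r (r + 1) id (alpha i) := by
  intro σ hσ
  rw [Finset.image_id]
  refine ⟨hσ.1.mono Finset.subset_union_left, ?_⟩
  rcases hσ.2 with ⟨k, hk, v, hv⟩ | ⟨k, hk, v, w, hvw, hv⟩
  · refine Or.inr ⟨k, by omega, v, flip i v, ?_, fun y hy => ?_⟩
    · rw [hammingDist_comm]
      exact dist_flip i v
    · rcases Finset.mem_union.1 hy with hy | hy
      · exact Or.inl (hv y hy)
      · obtain ⟨x, hx, rfl⟩ := Finset.mem_image.1 hy
        unfold alpha
        split_ifs
        · exact Or.inl (hv x hx)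
        · right
          rw [dist_flip_flip]
          exact hv x hx
  · -- the end of the edge with weight of the parity of `k + 1`
    obtain ⟨u, hu1, hu2⟩ : ∃ u : Vert n, (wt u + k) % 2 = 1 ∧ ∀ x ∈ σ, hammingDist x u ≤ k + 1 := by
      have hpar := dist_parity v w
      rw [hvw] at hpar
      have hb : ∀ x ∈ σ, hammingDist x v ≤ k + 1 ∧ hammingDist x w ≤ k + 1 := by
        intro x hx
        have t1 := hammingDist_triangle x w v
        have t2 := hammingDist_triangle x v w
        rw [hammingDist_comm w v] at t1
        rcases hv x hx with h | h <;> omega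
      by_cases hp : (wt v + k) % 2 = 1
      · exact ⟨v, hp, fun x hx => (hb x hx).1⟩
      · exact ⟨w, by omega, fun x hx => (hb x hx).2⟩
    refine Or.inl ⟨k + 1, by omega, u, fun y hy => ?_⟩
    rcases Finset.mem_union.1 hy with hy | hy
    · exact hu2 y hy
    · obtain ⟨x, hx, rfl⟩ := Finset.mem_image.1 hy
      unfold alpha
      split_ifs with he
      · exact hu2 x hx
      · have h1 := dist_parity x u
        have h2 := hu2 x hx
        rw [Nat.even_iff] at he
        have h3 := hammingDist_triangle (flip i x) x u
        rw [dist_flip] at h3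
        omega

theorem homotopic_fold (i : Fin n) (r : ℕ) :
    (real id (contig_alpha i r).left).Homotopic
      ((real id (contig_alpha i r).left).comp (real (fold i) (contig_fold i r))) := by
  have h1 := homotopic_of_contig (contig_alpha i r)
  have h2 : ((real id (contig_alpha i r).left).comp (real (fold i) (contig_fold i r))).Homotopic
      ((real (alpha i) (contig_alpha i r).right).comp (real (fold i) (contig_fold i r))) :=
    h1.comp (ContinuousMap.Homotopic.refl _)
  have h3 : (real (alpha i) (contig_alpha i r).right).comp (real (fold i) (contig_fold i r)) =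
      real (alpha i) (contig_alpha i r).right := by
    rw [real_comp (hfg := by rw [alpha_fold]; exact (contig_alpha i r).right)]
    congr 1
    exact alpha_fold i
  rw [h3] at h2
  exact h1.trans h2.symm

/-- fold the coordinates of a list -/
def foldAll : List (Fin n) → Vert n → Vert n
  | [] => id
  | i :: l => fold i ∘ foldAll l

theorem Contig.comp {t : ℕ} {f g : Vert n → Vert n} (hf : Contig s t f f) (hg : Contig r s g g) :
    Contig r t (f ∘ g) (f ∘ g) := by
  intro σ hσ
  have h := hf _ (hg σ hσ)
  rw [Finset.union_self] at h ⊢
  rw [Finset.union_self] at h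
  rwa [Finset.image_image] at h

theorem contig_id (n r : ℕ) : Contig (n := n) r r id id := fun σ hσ => by
  rwa [Finset.union_self, Finset.image_id]

theorem contig_foldAll (r : ℕ) : ∀ l : List (Fin n), Contig r r (foldAll l) (foldAll l)
  | [] => contig_id n r
  | i :: l => (contig_fold i r).comp (contig_foldAll r l)

theorem homotopic_foldAll (r : ℕ) (h : Contig (n := n) r (r + 1) id id) : ∀ l : List (Fin n),
    (real id h).Homotopic ((real id h).comp (real (foldAll l) (contig_foldAll r l)))
  | [] => by
    rw [real_comp (hfg := h)]
    exact ContinuousMap.Homotopic.refl _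
  | i :: l => by
    have h1 := homotopic_foldAll r h l
    have h2 : ((real id h).comp (real (foldAll l) (contig_foldAll r l))).Homotopic
        (((real id h).comp (real (fold i) (contig_fold i r))).comp
          (real (foldAll l) (contig_foldAll r l))) :=
      (homotopic_fold i r).comp (ContinuousMap.Homotopic.refl _)
    have h3 : ((real id h).comp (real (fold i) (contig_fold i r))).comp
          (real (foldAll l) (contig_foldAll r l)) =
        (real id h).comp (real (foldAll (i :: l)) (contig_foldAll r (i :: l))) := by
      rw [ContinuousMap.comp_assoc]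
      congr 1
      exact real_comp _ _ _
    rw [← h3]
    exact h1.trans h2

theorem foldAll_of_mem (i : Fin n) (x : Vert n) : ∀ l : List (Fin n), i ∈ l → foldAll l x i = false
  | [], h => by simp at h
  | j :: l, h => by
    by_cases hij : i = j
    · subst hij
      simp [foldAll, fold]
    · have : i ∈ l := by simpa [hij] using h
      simp only [foldAll, Function.comp, fold, Function.update_of_ne hij]
      exact foldAll_of_mem i x l this

theorem foldAll_finRange : foldAll (List.finRange n) = fun _ _ => false := by
  funext x i
  exact foldAll_of_mem i x _ (List.mem_finRange i)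

theorem cech_subset (hn : 1 ≤ n) : Cech n r ⊆ Cech n (r + 1) := by
  intro p hp
  have := push_mem (contig_alpha ⟨0, hn⟩ r).left hp
  rwa [push_id] at this

/-- **The inclusion `N(I_n, r) → N(I_n, r + 1)` is null-homotopic for all `n ≥ 1` and `r ≥ 0`.** -/
theorem result (n r : ℕ) (hn : 1 ≤ n) :
    ∃ h : Cech n r ⊆ Cech n (r + 1),
      (ContinuousMap.mk (Set.inclusion h) (continuous_inclusion h)).Nullhomotopic := by
  refine ⟨cech_subset hn, ?_⟩
  have hc := (contig_alpha (⟨0, hn⟩ : Fin n) r).left
  have h1 : ContinuousMap.mk (Set.inclusion (cech_subset (r := r) hn))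
      (continuous_inclusion (cech_subset hn)) = real id hc := by
    ext p
    simp [real, push_id]
  rw [h1]
  have h2 := homotopic_foldAll r hc (List.finRange n)
  -- a point of `N(I_n, r + 1)`
  let o : Vert n := fun _ => false
  have hface : ∀ s : ℕ, IsSimplex n s {o} := by
    intro s
    refine ⟨Finset.singleton_nonempty _, ?_⟩
    rcases Nat.even_or_odd' s with ⟨k, hk | hk⟩
    · exact Or.inl ⟨k, hk, o, fun x hx => by
        rw [Finset.mem_singleton.1 hx, hammingDist_self]; exact Nat.zero_le _⟩
    · refine Or.inr ⟨k, hk, o, flip ⟨0, hn⟩ o, ?_, fun x hx => Or.inl ?_⟩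
      · rw [hammingDist_comm]
        exact dist_flip _ _
      · rw [Finset.mem_singleton.1 hx, hammingDist_self]
        exact Nat.zero_le _
  let c : Vert n → ℝ := fun y => if y = o then 1 else 0
  have hcm : c ∈ Cech n (r + 1) := by
    refine ⟨fun y => ?_, by simp [c], ?_⟩
    · simp only [c]
      split_ifs <;> norm_num
    · have : (univ.filter fun y => c y ≠ 0) = {o} := by
        ext y
        simp [c]
      rw [this]
      exact hface _
  refine ⟨⟨c, hcm⟩, ?_⟩
  have h3 : (real id hc).comp (real (foldAll (List.finRange n)) (contig_foldAll r _)) =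
      ContinuousMap.const _ (⟨c, hcm⟩ : Cech n (r + 1)) := by
    ext p y
    have hp := p.2.2.1
    simp only [real, ContinuousMap.comp_apply, ContinuousMap.coe_mk, push_id,
      foldAll_finRange, ContinuousMap.const_apply]
    simp only [push, c]
    by_cases hy : y = o
    · subst hy
      simpa [o] using hp
    · have hy' : ¬ ((fun _ => false : Vert n) = y) := fun h => hy h.symm
      simp [hy, hy']
  rw [← h3]
  exact h2

end Pool.Agent.Results.MP_117f64_co.NullHomotopicInclusion
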